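import Pool.Agent.H9.FC.TC
import Pool.Agent.H9.FC.TB

namespace Pool.Agent.H9.FCM.CNV

open Pool.Agent.H9.FC Set BSet

theorem pf_CNV (hBND : T_BND) : T_CNV := by
  intro p Ω _ _ _ hHC ι d r hr
  obtain ⟨β, hβ, f, h1, h2, h3, h4⟩ := hBND p Ω ⊤ (by
      intro A hA hA'
      obtain ⟨β, hβ, h⟩ := hHC A (fun a => a.1)
        ((Cardinal.le_aleph0_iff_set_countable.2 hA).trans Cardinal.aleph0_le_continuum)
        (fun a => hA' a.1 a.2)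
      exact ⟨β, hβ, fun δ hδ => h ⟨δ, hδ⟩⟩) ι d
    (fun n c V => ∃ h : V ∈ PP p (⊤ : Ω), (⟨V, h⟩ : Cond p Ω) ∈ (r n c).1)
    (by
      rintro n c V V' hV' hsub ⟨h, hm⟩
      exact ⟨hV', (r n c).2.lower hm (show (⟨V', hV'⟩ : Cond p Ω) ≤ ⟨V, h⟩ from hsub)⟩)
    (by
      intro n V hV
      have h := (hr n).1
      have h1 : (⟨V, hV⟩ : Cond p Ω) ∈ (⨆ i, r n i).1 := by rw [h]; exact RO.mem_top
      obtain ⟨W, hW, c, hc⟩ := RO.mem_iSup.1 h1 _ le_rfl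
      exact ⟨W.1, W.2, hW, c, W.2, hc⟩)
  refine ⟨β, hβ, f, h1, h2, fun x n => ?_, fun n c V hV => ?_⟩
  · rcases h3 x n with h | ⟨V, hV, hV', hm⟩
    · exact Or.inl h
    · refine Or.inr fun hb => ?_
      rw [hb] at hm
      exact RO.not_mem_bot hm
  · refine ((r n c).2 V).2 fun W hW => ?_
    obtain ⟨V', hV', hsub, hV'', hm⟩ := h4 n c W.1 W.2 (fun x hx => hV x (hW hx))
    exact ⟨⟨V', hV'⟩, hsub, hm⟩

end Pool.Agent.H9.FCM.CNV
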