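import Pool.Agent.H9.FC.TA
import Pool.Agent.H9.FC.TC

namespace Pool.Agent.H9.FCM.QF1

open Pool.Agent.H9.FC Set BSet

variable {B : Type} [CompleteBooleanAlgebra B]

theorem prime (M : Gen B) {a c : B} (h : a ⊔ c ∈ M.G) : a ∈ M.G ∨ c ∈ M.G := by
  rcases M.ultra a with ha | ha
  · exact Or.inl ha
  · refine Or.inr (M.up (M.inf_mem h ha) ?_)
    rw [inf_sup_right, inf_compl_self, bot_sup_eq]
    exact inf_le_left

theorem compl_mem_iff (M : Gen B) {a : B} : aᶜ ∈ M.G ↔ a ∉ M.G := by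
  constructor
  · intro h h'
    have := M.inf_mem h h'
    rw [compl_inf_self] at this
    exact M.bot_not_mem this
  · intro h
    exact (M.ultra a).resolve_left h

theorem finInf {ι : Type*} (M : Gen B) (s : Finset ι) (f : ι → B) (h : ∀ i ∈ s, f i ∈ M.G) :
    s.inf f ∈ M.G := by
  classical
  induction s using Finset.induction with
  | empty => simpa using M.top_mem
  | insert a s _ ih =>
    rw [Finset.inf_insert]
    exact M.inf_mem (h a (Finset.mem_insert_self a s))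
      (ih fun i hi => h i (Finset.mem_insert_of_mem hi))

theorem finInf' (M : Gen B) {n : ℕ} (f : Fin n → B) (h : ∀ i, f i ∈ M.G) :
    (⨅ i, f i) ∈ M.G := by
  rw [← Finset.inf_univ_eq_iInf]
  exact finInf M _ _ fun i _ => h i

theorem finSup {ι : Type*} (M : Gen B) (s : Finset ι) (f : ι → B) (h : s.sup f ∈ M.G) :
    ∃ i ∈ s, f i ∈ M.G := by
  classical
  induction s using Finset.induction with
  | empty => exact (M.bot_not_mem (by simpa using h)).elim
  | insert a s _ ih =>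
    rw [Finset.sup_insert] at h
    rcases prime M h with h | h
    · exact ⟨a, Finset.mem_insert_self a s, h⟩
    · obtain ⟨i, hi, h⟩ := ih h
      exact ⟨i, Finset.mem_insert_of_mem hi, h⟩

/-- the value picked by `least` -/
theorem least_mem (M : Gen B) (c : ℕ → ℕ → B) (n m : ℕ) (h : c n m ∈ M.G)
    (h' : ∀ k < m, c n k ∉ M.G) : least c n m ∈ M.G := by
  unfold least
  refine M.up (M.inf_mem h (finInf' M (fun k : Fin m => (c n k)ᶜ) fun k => ?_)) le_sup_left
  exact (compl_mem_iff M).2 (h' k k.2)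

theorem mem_bfam (b : ℕ → ℕ) (w : BSet B) :
    bmem w (bfam b) = ⨆ x : {x : ℕ → ℕ // ∀ k, x k < b k}, beq w (bgr x.1) := by
  show (⨆ x : {x : ℕ → ℕ // ∀ k, x k < b k}, (⊤ : B) ⊓ beq w (bgr x.1)) = _
  simp

theorem rv_bgr (hNUM : T_NUM) (x : ℕ → ℕ) (n m : ℕ) (h : m ≠ x n) : rv (bgr x : BSet B) n m = ⊥ := by
  unfold rv
  rw [(hNUM B).2.2.2.2.2.2.2.2]
  refine iSup_eq_bot.2 fun k => (hNUM B).2.2.2.2.1 _ _ _ _ ?_
  intro heq
  rw [Prod.mk.injEq] at heq
  exact h (by rw [heq.2, heq.1])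

theorem rv_bgr' (x : ℕ → ℕ) (n : ℕ) : rv (bgr x : BSet B) n (x n) = ⊤ :=
  top_le_iff.1 (bval_le_bmem (bgr x) n)

theorem codes_bgr (hNUM : T_NUM) (hQC : T_QC) (M : Gen B) (hn : ∀ n, bnum n ∈ M.X)
    (hp : ∀ x y, x ∈ M.X → y ∈ M.X → bup x y ∈ M.X)
    (hj : ∀ t ∈ M.X, (⨆ q : ℕ × ℕ, beq t (bnp q.1 q.2)) ∈ M.G → ∃ n m, beq t (bnp n m) ∈ M.G)
    (x : ℕ → ℕ) (hx : bgr x ∈ M.X) : Codes M.E (M.cl ⟨bgr x, hx⟩) x := by
  refine (hQC _ M hn hp _ _).2 ⟨fun n m => ?_, fun t h => ?_⟩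
  · constructor
    · intro h
      by_contra hne
      rw [rv_bgr hNUM x n m hne] at h
      exact M.bot_not_mem h
    · rintro rfl
      rw [rv_bgr']
      exact M.top_mem
  · rw [(hNUM B).2.2.2.2.2.2.2.2] at h
    refine hj t.1 t.2 (M.up h (iSup_le fun n => ?_))
    exact le_iSup (fun q : ℕ × ℕ => beq t.1 (bnp q.1 q.2)) (n, x n)

theorem elem_bfam (hNUM : T_NUM) (hQC : T_QC) (M : Gen B) (hn : ∀ n, bnum n ∈ M.X)
    (hp : ∀ x y, x ∈ M.X → y ∈ M.X → bup x y ∈ M.X)
    (hj : ∀ t ∈ M.X, (⨆ q : ℕ × ℕ, beq t (bnp q.1 q.2)) ∈ M.G → ∃ n m, beq t (bnp n m) ∈ M.G)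
    (b : ℕ → ℕ) (w : M.X) (hw : bmem w.1 (bfam b) ∈ M.G) :
    ∃ x : ℕ → ℕ, Codes M.E (M.cl w) x ∧ ∀ k, x k < b k := by
  have hbeq : ∀ (x : ℕ → ℕ) (n m : ℕ), beq w.1 (bgr x) ⊓ rv w.1 n m ≤ rv (bgr x) n m :=
    fun x n m => bmem_congr_right _ _ _
  have hex : ∀ n, ∃ m < b n, rv w.1 n m ∈ M.G := by
    intro n
    have h1 : bmem w.1 (bfam b) ≤ (Finset.range (b n)).sup (fun m => rv w.1 n m) := by
      rw [mem_bfam]
      refine iSup_le fun x => ?_
      refine le_trans ?_ (Finset.le_sup (f := fun m => rv w.1 n m)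
        (Finset.mem_range.2 (x.2 n)))
      have h2 : beq (bgr x.1) w.1 ⊓ rv (bgr x.1) n (x.1 n) ≤ rv w.1 n (x.1 n) :=
        bmem_congr_right _ _ _
      rw [rv_bgr', inf_top_eq, beq_symm] at h2
      exact h2
    obtain ⟨m, hm, h⟩ := finSup M _ _ (M.up hw h1)
    exact ⟨m, Finset.mem_range.1 hm, h⟩
  choose f hf1 hf2 using hex
  refine ⟨f, (hQC _ M hn hp _ _).2 ⟨fun n m => ?_, fun t h => ?_⟩, hf1⟩
  · constructor
    · intro h
      by_contra hne
      have h1 := M.inf_mem hw (M.inf_mem h (hf2 n))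
      have h2 : bmem w.1 (bfam b) ⊓ (rv w.1 n m ⊓ rv w.1 n (f n)) ≤ ⊥ := by
        rw [mem_bfam, iSup_inf_eq]
        refine iSup_le fun x => ?_
        by_cases hm : m = x.1 n
        · have hm' : f n ≠ x.1 n := fun h => hne (hm.trans h.symm)
          have h3 := hbeq x.1 n (f n)
          rw [rv_bgr hNUM _ _ _ hm'] at h3
          refine le_trans ?_ h3
          exact inf_le_inf_left _ inf_le_right
        · have h3 := hbeq x.1 n m
          rw [rv_bgr hNUM _ _ _ hm] at h3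
          refine le_trans ?_ h3
          exact inf_le_inf_left _ inf_le_left
      exact M.bot_not_mem (M.up h1 h2)
    · rintro rfl
      exact hf2 n
  · refine hj t.1 t.2 (M.up (M.inf_mem hw h) ?_)
    rw [mem_bfam, iSup_inf_eq]
    refine iSup_le fun x => ?_
    refine (bmem_congr_right t.1 w.1 (bgr x.1)).trans ?_
    rw [(hNUM B).2.2.2.2.2.2.2.2]
    exact iSup_le fun n => le_iSup (fun q : ℕ × ℕ => beq t.1 (bnp q.1 q.2)) (n, x.1 n)

/-- a partition picks one value -/
theorem part_eq (M : Gen B) {ι : Type} {r : ι → B} (hr : IsPart r) {i j : ι} {a : B}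
    (h : a ∈ M.G) (ha : a ≤ r i ⊓ r j) : i = j := by
  by_contra hne
  rw [hr.2 i j hne] at ha
  exact M.bot_not_mem (M.up h ha)

theorem pf_QF1 (hNUM : T_NUM) (hQC : T_QC) (hLST : T_LST) : T_QF1 := by
  intro p B _ M xx hF hn hp hgr hxx1 hxx2 hj hj3
  constructor
  · intro z hz
    obtain ⟨w, rfl⟩ := M.cl_surj z
    exact elem_bfam hNUM hQC M hn hp hj p.b w hz
  · rintro j h ⟨zj, hzj⟩ ⟨zh, hzh⟩ hj0 hjm hhb
    obtain ⟨u, rfl⟩ := M.cl_surj zj
    obtain ⟨v, rfl⟩ := M.cl_surj zh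
    have hu := ((hQC _ M hn hp _ _).1 hzj).1
    have hv := ((hQC _ M hn hp _ _).1 hzh).1
    have hlu : ∀ n, least (rv u.1) n (j n) ∈ M.G := fun n =>
      least_mem M _ n (j n) ((hu n (j n)).2 rfl) fun k hk hk' => (ne_of_lt hk) ((hu n k).1 hk')
    have hlv : ∀ n, least (rv v.1) n (h n) ∈ M.G := fun n =>
      least_mem M _ n (h n) ((hv n (h n)).2 rfl) fun k hk hk' => (ne_of_lt hk) ((hv n k).1 hk')
    have hx := hgr u.1 v.1 u.2 v.2
    refine ⟨M.cl ⟨bgr (xx u.1 v.1), hx⟩, xx u.1 v.1, ?_,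
      codes_bgr hNUM hQC M hn hp hj _ hx, ?_⟩
    · rw [M.E_cl]
      refine M.up M.top_mem ?_
      exact bval_le_bmem (bfam p.b) ⟨xx u.1 v.1, hxx1 u.1 v.1⟩
    · rintro ⟨n₀, hb⟩
      obtain ⟨n, hn'⟩ := hj3 u.1 v.1 u.2 v.2 n₀ (by rw [hxx2]; exact M.top_mem)
      obtain ⟨k, hk1, hk2, hk3⟩ := hb (n₀ + n) (Nat.le_add_right _ _)
      set N := n₀ + n with hN
      -- the finite infimum for h on the interval
      have hI : (⨅ i : Fin (j (N + 1) - j N), least (rv v.1) (j N + i) (h (j N + i))) ∈ M.G :=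
        finInf' M _ fun i => hlv _
      have hall := M.inf_mem hn' (M.inf_mem (M.inf_mem (hlu N) (hlu (N + 1))) hI)
      -- expand
      have key : avoid p (least (rv u.1)) (least (rv v.1)) (xx u.1 v.1) N ⊓
          ((least (rv u.1) N (j N) ⊓ least (rv u.1) (N + 1) (j (N + 1))) ⊓
          ⨅ i : Fin (j (N + 1) - j N), least (rv v.1) (j N + i) (h (j N + i))) ≤ ⊥ := by
        unfold avoid
        rw [iSup_inf_eq]
        refine iSup_le ?_
        rintro ⟨⟨P, Q, ρ⟩, hbad⟩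
        dsimp only
        by_cases hP : P = j N
        swap
        · have h1 := (hLST B (rv u.1) N).2 P (j N) hP
          refine le_trans ?_ h1.le
          exact le_inf (inf_le_left.trans (inf_le_left.trans inf_le_left))
            (inf_le_right.trans (inf_le_left.trans inf_le_left))
        by_cases hQ : Q = j (N + 1)
        swap
        · have h1 := (hLST B (rv u.1) (N + 1)).2 Q (j (N + 1)) hQ
          refine le_trans ?_ h1.le
          exact le_inf (inf_le_left.trans (inf_le_left.trans inf_le_right))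
            (inf_le_right.trans (inf_le_left.trans inf_le_right))
        subst hP hQ
        obtain ⟨hlen, hnot⟩ := hbad
        dsimp only at hlen hnot
        by_cases hρ : ∀ i < ρ.length, ρ.getD i 0 = h (j N + i)
        · exfalso
          apply hnot
          refine ⟨hjm.le_apply, hjm (Nat.lt_succ_self N), fun i hi => ?_, k - j N, ?_, ?_⟩
          · rw [hρ i hi]
            exact hhb _
          · rw [hlen]; omega
          · rw [hρ _ (by rw [hlen]; omega)]
            have : j N + (k - j N) = k := by omega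
            rw [this]
            exact hk3
        · push Not at hρ
          obtain ⟨i, hi, hne⟩ := hρ
          have h1 := (hLST B (rv v.1) (j N + i)).2 (ρ.getD i 0) (h (j N + i)) hne
          refine le_trans ?_ h1.le
          refine le_inf (inf_le_left.trans (inf_le_right.trans ?_))
            (inf_le_right.trans (inf_le_right.trans ?_))
          · exact iInf_le (fun i : Fin ρ.length => least (rv v.1) (j N + i) (ρ.getD i 0)) ⟨i, hi⟩
          · exact iInf_le (fun i : Fin (j (N + 1) - j N) =>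
              least (rv v.1) (j N + i) (h (j N + i))) ⟨i, by rw [hlen] at hi; exact hi⟩
      exact M.bot_not_mem (M.up hall key)

end Pool.Agent.H9.FCM.QF1
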