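import Pool.Agent.H9.FC.TA
import Pool.Agent.H9.FCM.QF1

namespace Pool.Agent.H9.FCM.LOS

open Pool.Agent.H9.FC Set BSet Pool.Agent.H9.FCM.QF1

theorem pf_LOS : T_LOS := by
  intro B _ M φ
  induction φ with
  | mem i j => intro v; exact M.E_cl _ _
  | eq i j => intro v; exact M.cl_eq _ _
  | fal => intro v; exact ⟨fun h => h.elim, fun h => M.bot_not_mem h⟩
  | imp φ ψ ih1 ih2 =>
    intro v
    show (Sat M.E φ _ → Sat M.E ψ _) ↔ (fv φ _ ⇨ fv ψ _) ∈ M.G
    rw [ih1, ih2, himp_eq]
    constructor
    · intro h
      rcases M.ultra (fv φ (fun i => (v i).1)) with h1 | h1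
      · exact M.up (h h1) le_sup_left
      · exact M.up h1 le_sup_right
    · intro h h1
      rcases prime M h with h2 | h2
      · exact h2
      · exact absurd h1 ((compl_mem_iff M).1 h2)
  | all i φ ih =>
    intro v
    show (∀ x, Sat M.E φ (Function.update _ i x)) ↔
      (⨅ x : BSet B, fv φ (Function.update _ i x)) ∈ M.G
    have e1 : ∀ x : M.X, (Function.update (fun j => M.cl (v j)) i (M.cl x)) =
        fun j => M.cl (Function.update v i x j) := by
      intro x
      funext j
      by_cases h : j = i
      · subst h; simp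
      · simp [h]
    have e2 : ∀ x : M.X, (Function.update (fun j => (v j).1) i x.1) =
        fun j => ((Function.update v i x j).1 : BSet B) := by
      intro x
      funext j
      by_cases h : j = i
      · subst h; simp
      · simp [h]
    constructor
    · intro h
      by_contra hcon
      have h1 := (compl_mem_iff M).2 hcon
      obtain ⟨x, hx, hx'⟩ := M.skolem (.imp φ .fal) (fun j => (v j).1) (fun j => (v j).2) i
      have h2 : (⨅ x : BSet B, fv φ (Function.update (fun j => (v j).1) i x))ᶜ =
          ⨆ y, fv (.imp φ .fal) (Function.update (fun j => (v j).1) i y) := by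
        rw [compl_iInf]
        refine iSup_congr fun y => ?_
        show _ = (fv φ _ ⇨ ⊥)
        rw [himp_bot]
      rw [h2, ← hx'] at h1
      have h3 : (fv φ (Function.update (fun j => (v j).1) i x))ᶜ ∈ M.G := by
        have : fv (.imp φ .fal) (Function.update (fun j => (v j).1) i x) =
            (fv φ (Function.update (fun j => (v j).1) i x))ᶜ := himp_bot _
        rw [← this]
        exact h1
      have h4 := h (M.cl ⟨x, hx⟩)
      rw [e1, ih] at h4
      rw [e2 ⟨x, hx⟩] at h3
      exact (compl_mem_iff M).1 h3 h4
    · intro h x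
      obtain ⟨x, rfl⟩ := M.cl_surj x
      rw [e1, ih, ← e2]
      exact M.up h (iInf_le _ x.1)

end Pool.Agent.H9.FCM.LOS
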