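import Pool.Agent.H9.FCM.QF1
import Pool.Agent.H9.FC.CD2

namespace Pool.Agent.H9.FCM.QF12

open Pool.Agent.H9.FC Set BSet Pool.Agent.H9.FCM.QF1

theorem pf_QF12 (hNUM : T_NUM) (hQC : T_QC) (hLST : T_LST) : T_QF12 := by
  intro p B _ M xx hF hn hp hgr hxx1 hxx2 hj hj3 b' hb'
  constructor
  · intro z hz
    obtain ⟨w, rfl⟩ := M.cl_surj z
    obtain ⟨x, h1, h2⟩ := elem_bfam hNUM hQC M hn hp hj p.b w hz
    exact ⟨x, h1, fun k => (h2 k).trans_le (hb' k)⟩
  · rintro j h ⟨zj, hzj⟩ ⟨zh, hzh⟩ hj0 hjm hhb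
    obtain ⟨u, rfl⟩ := M.cl_surj zj
    obtain ⟨v, rfl⟩ := M.cl_surj zh
    have hu := ((hQC _ M hn hp _ _).1 hzj).1
    have hv := ((hQC _ M hn hp _ _).1 hzh).1
    have hlu : ∀ n, least (rv u.1) n (j n) ∈ M.G := fun n =>
      least_mem M _ n (j n) ((hu n (j n)).2 rfl) fun k hk hk' => (ne_of_lt hk) ((hu n k).1 hk')
    have hlv : ∀ n, least (rv v.1) n (h n) ∈ M.G := fun n =>
      least_mem M _ n (h n) ((hv n (h n)).2 rfl) fun k hk hk' => (ne_of_lt hk) ((hv n k).1 hk')
    have hx := hgr u.1 v.1 u.2 v.2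
    refine ⟨M.cl ⟨bgr (xx u.1 v.1), hx⟩, xx u.1 v.1, ?_,
      codes_bgr hNUM hQC M hn hp hj _ hx, ?_⟩
    · rw [M.E_cl]
      refine M.up M.top_mem ?_
      exact bval_le_bmem (bfam p.b) ⟨xx u.1 v.1, hxx1 u.1 v.1⟩
    · rintro ⟨n₀, hb⟩
      obtain ⟨n, hn'⟩ := hj3 u.1 v.1 u.2 v.2 n₀ (by rw [hxx2]; exact M.top_mem)
      obtain ⟨k, hk1, hk2, hk3⟩ := hb (n₀ + n) (Nat.le_add_right _ _)
      set N := n₀ + n with hN
      -- the finite infimum for h on the interval
      have hI : (⨅ i : Fin (j (N + 1) - j N), least (rv v.1) (j N + i) (h (j N + i))) ∈ M.G :=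
        finInf' M _ fun i => hlv _
      have hall := M.inf_mem hn' (M.inf_mem (M.inf_mem (hlu N) (hlu (N + 1))) hI)
      -- expand
      have key : avoid2 (least (rv u.1)) (least (rv v.1)) (xx u.1 v.1) N ⊓
          ((least (rv u.1) N (j N) ⊓ least (rv u.1) (N + 1) (j (N + 1))) ⊓
          ⨅ i : Fin (j (N + 1) - j N), least (rv v.1) (j N + i) (h (j N + i))) ≤ ⊥ := by
        unfold avoid2
        rw [iSup_inf_eq]
        refine iSup_le ?_
        rintro ⟨⟨P, Q, ρ⟩, hbad⟩
        dsimp only
        by_cases hP : P = j N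
        swap
        · have h1 := (hLST B (rv u.1) N).2 P (j N) hP
          refine le_trans ?_ h1.le
          exact le_inf (inf_le_left.trans (inf_le_left.trans inf_le_left))
            (inf_le_right.trans (inf_le_left.trans inf_le_left))
        by_cases hQ : Q = j (N + 1)
        swap
        · have h1 := (hLST B (rv u.1) (N + 1)).2 Q (j (N + 1)) hQ
          refine le_trans ?_ h1.le
          exact le_inf (inf_le_left.trans (inf_le_left.trans inf_le_right))
            (inf_le_right.trans (inf_le_left.trans inf_le_right))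
        subst hP hQ
        obtain ⟨hlen, hnot⟩ := hbad
        dsimp only at hlen hnot
        by_cases hρ : ∀ i < ρ.length, ρ.getD i 0 = h (j N + i)
        · exfalso
          apply hnot
          refine ⟨hjm.le_apply, hjm (Nat.lt_succ_self N), k - j N, ?_, ?_⟩
          · rw [hlen]; omega
          · rw [hρ _ (by rw [hlen]; omega)]
            have : j N + (k - j N) = k := by omega
            rw [this]
            exact hk3
        · push Not at hρ
          obtain ⟨i, hi, hne⟩ := hρ
          have h1 := (hLST B (rv v.1) (j N + i)).2 (ρ.getD i 0) (h (j N + i)) hne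
          refine le_trans ?_ h1.le
          refine le_inf (inf_le_left.trans (inf_le_right.trans ?_))
            (inf_le_right.trans (inf_le_right.trans ?_))
          · exact iInf_le (fun i : Fin ρ.length => least (rv v.1) (j N + i) (ρ.getD i 0)) ⟨i, hi⟩
          · exact iInf_le (fun i : Fin (j (N + 1) - j N) =>
              least (rv v.1) (j N + i) (h (j N + i))) ⟨i, by rw [hlen] at hi; exact hi⟩
      exact M.bot_not_mem (M.up hall key)

end Pool.Agent.H9.FCM.QF12
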