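import Pool.Agent.H9.FCM.Fin2
import Pool.Agent.H9.FCM.UNB2
import Pool.Agent.H9.FCM.QF12
import Pool.Agent.H33.FC.PAR
import Pool.Agent.H59.FC.OMG
import Pool.Agent.H2.FC.BAS
import Pool.Agent.H54.FC.DCF
import Pool.Agent.H59.FC.AMA
import Pool.Agent.H43.FC.EXT
import Pool.Agent.H43.FC.DIC
import Pool.Agent.H2.FC.DEL
import Pool.Agent.H85.FC.CCC
import Pool.Agent.H29.FC.NAM
import Pool.Agent.H43.FC.BND
import Pool.Agent.H29.FC.CLA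
import Pool.Agent.H2.FC.PIG
import Pool.Agent.H48.FC.CLB
import Pool.Agent.H48.FC.STP
import Pool.Agent.H42.FC.PRE
import Pool.Agent.H98.FC.CAP
import Pool.Agent.H65.FC.BOX
import Pool.Agent.H65.FC.DIA
import Pool.Agent.H68.FC.MAX
import Pool.Agent.H33.FC.BQ
import Pool.Agent.H37.FC.FE
import Pool.Agent.H9.FCM.LOS
import Pool.Agent.H54.FC.TRA
import Pool.Agent.H35.FC.AX1
import Pool.Agent.H35.FC.AX2
import Pool.Agent.H35.FC.AX3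
import Pool.Agent.H35.FC.AX4
import Pool.Agent.H35.FC.AX5
import Pool.Agent.H68.FC.CLO
import Pool.Agent.H68.FC.RSG
import Pool.Agent.H68.FC.EXG
import Pool.Agent.H42.FC.NUM
import Pool.Agent.H73.FC.LST
import Pool.Agent.H42.FC.QN
import Pool.Agent.H9.FCM.CNV
import Pool.Agent.H29.FC.SLA
import Pool.Agent.H33.FC.TRE
import Pool.Agent.H17.FC.TBV
import Pool.Agent.H68.FC.FNC
import Pool.Agent.H69.FC.QF2

/-! Everything together. -/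

namespace Pool.Agent.H9.FCM.All

open Pool.Agent.H9.FC

theorem hBAS : T_BAS := Pool.Agent.H2.FC.BAS.pf_BAS
theorem hDCF : T_DCF := Pool.Agent.H54.FC.DCF.pf_DCF
theorem hAMA : T_AMA := Pool.Agent.H59.FC.pf_AMA hBAS
theorem hEXT : T_EXT := Pool.Agent.H43.FC.EXT.pf_EXT hBAS hDCF
theorem hDIC : T_DIC := Pool.Agent.H43.FC.DIC.pf_DIC hBAS hDCF hEXT
theorem hCCC : T_CCC := Pool.Agent.H85.FC.CCC.pf_CCC hBAS hDCF Pool.Agent.H2.FC.DEL.pf_DEL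
theorem hNAM : T_NAM := Pool.Agent.H29.FC.NAM.pf_NAM hBAS hDIC hCCC
theorem hBND : T_BND := Pool.Agent.H43.FC.BND.pf_BND hBAS hDIC hCCC
theorem hCLA : T_CLA := Pool.Agent.H29.FC.CLA.pf_CLA hBAS hDCF hEXT hNAM
theorem hCLB : T_CLB := Pool.Agent.H48.FC.CLB.pf_CLB Pool.Agent.H2.FC.PIG.pf_PIG hBAS
theorem hBOX : T_BOX := Pool.Agent.H65.FC.pf_BOX
theorem hSTP : T_STP := Pool.Agent.H48.FC.STP.pf_STP hNAM hCLA hCLB hBOX hBAS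
theorem hPRE : T_PRE := Pool.Agent.H42.FC.PRE.pf_PRE hBAS hAMA hDCF hSTP hBND
theorem hCAP : T_CAP := Pool.Agent.H98.FC.pf_CAP hEXT
theorem hSTM : T_STM := Pool.Agent.H98.FC.pf_STM hEXT
theorem hDIA : T_DIA := Pool.Agent.H65.FC.pf_DIA hBOX Pool.Agent.H65.FC.pf_FUL
theorem hMAX : T_MAX := Pool.Agent.H68.FC.MAX.pf_MAX
theorem hBQ : T_BQ := Pool.Agent.H33.FC.BQ.pf_BQ
theorem hCON : T_CON := Pool.Agent.H33.FC.BQ.pf_CON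
theorem hFE : T_FE := Pool.Agent.H37.FC.FE
theorem hLOS : T_LOS := Pool.Agent.H9.FCM.LOS.pf_LOS
theorem hTRA : T_TRA := Pool.Agent.H54.FC.TRA.pf_TRA hLOS
theorem hAX1 : T_AX1 := Pool.Agent.H35.FC.AX1.pf_AX1 hLOS hTRA hCON hBQ
theorem hAX2 : T_AX2 := Pool.Agent.H35.FC.AX2.pf_AX2 hLOS hTRA hCON hBQ
theorem hAX3 : T_AX3 := Pool.Agent.H35.FC.AX3.pf_AX3 hLOS hTRA hCON hBQ
theorem hAX4 : T_AX4 := Pool.Agent.H35.FC.AX4.pf_AX4 hLOS hTRA hCON hBQ hFE hMAX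
theorem hAX5 : T_AX5 := Pool.Agent.H35.FC.AX5.pf_AX5 hLOS hTRA hCON hBQ
theorem hEXG : T_EXG := Pool.Agent.H68.FC.EXG.pf_EXG Pool.Agent.H68.FC.CLO.pf_CLO
  Pool.Agent.H68.FC.RSG.pf_RSG hMAX hFE
theorem hNUM : T_NUM := Pool.Agent.H42.FC.NUM.pf_NUM
theorem hLST : T_LST := Pool.Agent.H73.FC.pf_LST
theorem hQN : T_QN := Pool.Agent.H42.FC.QN.pf_QN hNUM hAX1
theorem hQC : T_QC := Pool.Agent.H73.FC.pf_QC hQN hNUM
theorem hCNV : T_CNV := Pool.Agent.H9.FCM.CNV.pf_CNV hBND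
theorem hUNB : T_UNB2 := Pool.Agent.H9.FCM.UNB2.pf_UNB2 hCNV hPRE hDIA hAMA hBAS hDCF hBOX
  Pool.Agent.H65.FC.pf_NBM
theorem hSLA : T_SLA := Pool.Agent.H29.FC.SLA.pf_SLA hBAS hAMA hDCF hCAP hSTM hCNV
theorem hTBV : T_TBV := Pool.Agent.H17.FC.TBV.pf_TBV
theorem hFNC : T_FNC := Pool.Agent.H68.FC.FNC.pf_FNC hMAX hNUM
theorem hQF1 : T_QF12 := Pool.Agent.H9.FCM.QF12.pf_QF12 hNUM hQC hLST
theorem hQF2 : T_QF2 := Pool.Agent.H69.FC.pf_QF2 hNUM hQN hQC hLST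
  Pool.Agent.H33.FC.TRE.pf_TRE hTBV

theorem goal : Goal2 := Pool.Agent.H9.FCM.Fin2.main Pool.Agent.H33.FC.PAR.pf_PAR
  Pool.Agent.H59.FC.pf_OMG hBAS hEXG hAX1 hAX2 hAX3 hAX4 hAX5 hNUM hLST hQN hQC hUNB hSLA hFNC
  hQF1 hQF2

end Pool.Agent.H9.FCM.All
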