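import Pool.Agent.H9.FC.TA
import Pool.Agent.H9.FC.TB
import Pool.Agent.H9.FC.TC
import Pool.Agent.H9.FC.CD2

/-! Final assembly. -/

namespace Pool.Agent.H9.FCM.Fin2

open Pool.Agent.H9.FC Set BSet

theorem summ (p : Par) : Summable (fun k => (1 : ℝ) / p.b k) := by
  refine Summable.of_nonneg_of_le (fun k => by positivity) (fun k => ?_)
    (summable_geometric_of_lt_one (by norm_num : (0 : ℝ) ≤ 1 / 2) (by norm_num))
  have h := p.b_ge k
  have h1 : ((2 : ℝ) ^ k) ≤ p.b k := by exact_mod_cast h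
  rw [div_pow, one_pow]
  exact one_div_le_one_div_of_le (by positivity) h1

/-- the operations -/
noncomputable def ops {B : Type} [CompleteBooleanAlgebra B] (p : Par)
    (xx : BSet B → BSet B → ℕ → ℕ) (τ : BSet B → ℕ → Finset ℕ → B)
    (fw fz fz' : BSet B → BSet B) : ℕ → (ℕ → BSet B) → BSet B
  | 0, v => bup (v 0) (v 1)
  | 1, _ => bfam p.b
  | 2, v => bgr (xx (v 0) (v 1))
  | 3, v => bfn (tB p (τ (v 0)))
  | 4, v => fw (v 0)
  | 5, v => fz (v 0)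
  | 6, v => fz' (v 0)
  | 7, _ => bomega
  | 8, _ => bgr p.b
  | n + 9, _ => bnum n

/-- the joins -/
noncomputable def jns {B : Type} [CompleteBooleanAlgebra B] (p : Par)
    (xx : BSet B → BSet B → ℕ → ℕ) (τ : BSet B → ℕ → Finset ℕ → B) :
    ℕ → (ℕ → BSet B) → ℕ → B
  | 0, v => fun n => beq (v 0) (bnum n)
  | 1, v => fun n => beq (v 0) (bnp (Nat.unpair n).1 (Nat.unpair n).2)
  | 2, v => fun m => cov p (least (rv (v 1))) (τ (v 0)) m
  | k + 3, v => fun n => avoid2 (least (rv (v 0))) (least (rv (v 1))) (xx (v 0) (v 1)) (k + n)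

theorem main (hPAR : T_PAR) (hOMG : T_OMG) (hBAS : T_BAS) (hEXG : T_EXG) (hAX1 : T_AX1)
    (hAX2 : T_AX2) (hAX3 : T_AX3) (hAX4 : T_AX4) (hAX5 : T_AX5) (hNUM : T_NUM) (hLST : T_LST)
    (hQN : T_QN) (hQC : T_QC) (hUNB : T_UNB2) (hSLA : T_SLA) (hFNC : T_FNC) (hQF1 : T_QF12)
    (hQF2 : T_QF2) : Goal2 := by
  obtain ⟨p⟩ := hPAR
  obtain ⟨Ω, i1, i2, i3, hHC⟩ := hOMG
  have hHC' : HC Ω := hHC
  have huniv : (univ : Set (Pt Ω)) ∈ PP p (⊤ : Ω) := (mem_PP p _ _).2 (Or.inl rfl)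
  haveI : Nontrivial (BB p Ω) := ⟨⟨⊤, ⊥, by
    intro h
    have h1 : (⟨univ, huniv⟩ : Cond p Ω) ∈ (⊤ : BB p Ω).1 := RO.mem_top
    rw [h] at h1
    exact RO.not_mem_bot h1⟩⟩
  have hx : ∀ u v : BSet (BB p Ω), ∃ x : ℕ → ℕ, (∀ k, x k < p.b k) ∧
      ∀ n₀, (⨆ n, avoid2 (least (rv u)) (least (rv v)) x (n₀ + n)) = ⊤ := fun u v =>
    hUNB p Ω hHC' _ _ (fun n => hLST _ (rv u) n) (fun n => hLST _ (rv v) n)
  choose xx hxx1 hxx2 using hx
  have hcard : Cardinal.mk {x : ℕ → ℕ // ∀ k, x k < p.b k} ≤ Cardinal.continuum := by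
    refine (Cardinal.mk_subtype_le _).trans ?_
    simp
  have hτ : ∀ g : BSet (BB p Ω), ∃ τ : ℕ → Finset ℕ → BB p Ω, (∀ i, IsPart (τ i)) ∧
      (∀ i A, τ i A ≠ ⊥ → A ⊆ Finset.range (p.a i) ∧ 2 * A.card ≤ p.a i) ∧
      ∀ ξ : {x : ℕ → ℕ // ∀ k, x k < p.b k}, (⨆ m, cov p (least (gval g ξ.1)) τ m) = ⊤ := fun g =>
    hSLA p Ω hHC' {x : ℕ → ℕ // ∀ k, x k < p.b k} (fun ξ => least (gval g ξ.1)) hcard
      (fun ξ n => hLST _ (gval g ξ.1) n)
  choose τ hτ1 hτ2 hτ3 using hτ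
  choose fw fz fz' hf using hFNC (BB p Ω)
  obtain ⟨M, hM1, hM2⟩ := hEXG (BB p Ω) (ops p xx τ fw fz fz') (fun _ => 2) (jns p xx τ)
    (fun _ => 2) (by
      intro c v v' h
      have h0 := h 0 (by norm_num)
      have h1 := h 1 (by norm_num)
      match c with
      | 0 => simp only [ops, h0, h1]
      | 1 => simp only [ops]
      | 2 => simp only [ops, h0, h1]
      | 3 => simp only [ops, h0]
      | 4 => simp only [ops, h0]
      | 5 => simp only [ops, h0]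
      | 6 => simp only [ops, h0]
      | 7 => simp only [ops]
      | 8 => simp only [ops]
      | n + 9 => simp only [ops]) (by
      intro c v v' h
      have h0 := h 0 (by norm_num)
      have h1 := h 1 (by norm_num)
      match c with
      | 0 => simp only [jns, h0]
      | 1 => simp only [jns, h0]
      | 2 => simp only [jns, h0, h1]
      | k + 3 => simp only [jns, h0, h1])
  obtain ⟨s₀, hs₀⟩ := M.nonempty
  have hn : ∀ n, bnum n ∈ M.X := fun n => hM1 (n + 9) (fun _ => s₀) (fun _ => hs₀)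
  have hp : ∀ x y, x ∈ M.X → y ∈ M.X → bup x y ∈ M.X := fun x y hx hy =>
    hM1 0 (fun i => if i = 0 then x else y) (fun i => by split_ifs <;> assumption)
  have hF : bfam p.b ∈ M.X := hM1 1 (fun _ => s₀) (fun _ => hs₀)
  have hgr : ∀ u v, u ∈ M.X → v ∈ M.X → bgr (xx u v) ∈ M.X := fun u v hu hv =>
    hM1 2 (fun i => if i = 0 then u else v) (fun i => by split_ifs <;> assumption)
  have hg : ∀ g ∈ M.X, bfn (tB p (τ g)) ∈ M.X ∧ fw g ∈ M.X ∧ fz g ∈ M.X ∧ fz' g ∈ M.X :=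
    fun g hg => ⟨hM1 3 (fun _ => g) (fun _ => hg), hM1 4 (fun _ => g) (fun _ => hg),
      hM1 5 (fun _ => g) (fun _ => hg), hM1 6 (fun _ => g) (fun _ => hg)⟩
  have hom : bomega ∈ M.X := hM1 7 (fun _ => s₀) (fun _ => hs₀)
  have hb : bgr p.b ∈ M.X := hM1 8 (fun _ => s₀) (fun _ => hs₀)
  have hj0 : ∀ t ∈ M.X, (⨆ n, beq t (bnum n)) ∈ M.G → ∃ n, beq t (bnum n) ∈ M.G := fun t ht h =>
    hM2 0 (fun _ => t) (fun _ => ht) h
  have hj1 : ∀ t ∈ M.X, (⨆ q : ℕ × ℕ, beq t (bnp q.1 q.2)) ∈ M.G →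
      ∃ n m, beq t (bnp n m) ∈ M.G := by
    intro t ht h
    have h1 : (⨆ n, jns p xx τ 1 (fun _ => t) n) ∈ M.G := by
      have h2 : (⨆ n, jns p xx τ 1 (fun _ => t) n) = ⨆ q : ℕ × ℕ, beq t (bnp q.1 q.2) :=
        (Nat.pairEquiv.symm).iSup_comp (g := fun q : ℕ × ℕ => beq t (bnp q.1 q.2))
      rw [h2]; exact h
    obtain ⟨n, hn⟩ := hM2 1 (fun _ => t) (fun _ => ht) h1
    exact ⟨_, _, hn⟩
  have hj2 : ∀ g ∈ M.X, ∀ z ∈ M.X, (⨆ m, cov p (least (rv z)) (τ g) m) ∈ M.G →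
      ∃ m, cov p (least (rv z)) (τ g) m ∈ M.G := fun g hg z hz h =>
    hM2 2 (fun i => if i = 0 then g else z) (fun i => by split_ifs <;> assumption) h
  have hj3 : ∀ u v, u ∈ M.X → v ∈ M.X → ∀ n₀,
      (⨆ n, avoid2 (least (rv u)) (least (rv v)) (xx u v) (n₀ + n)) ∈ M.G →
      ∃ n, avoid2 (least (rv u)) (least (rv v)) (xx u v) (n₀ + n) ∈ M.G := fun u v hu hv n₀ h =>
    hM2 (n₀ + 3) (fun i => if i = 0 then u else v)
      (fun i => by split_ifs <;> assumption) h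
  obtain ⟨hnum1, hnum2⟩ := hQN _ M hn hp
  refine ⟨M.N, M.E, ?_, ?_, p.b, ?_, summ p, ?_, M.cl ⟨bfam p.b, hF⟩, ?_, ?_⟩
  · exact
      { ext := (hAX1 _ M).1
        found := (hAX1 _ M).2
        pair := (hAX2 _ M).1
        union := (hAX2 _ M).2
        power := (hAX3 _ M).1
        infinity := (hAX3 _ M).2
        sep := (hAX4 _ M).1
        repl := (hAX4 _ M).2
        choice := hAX5 _ M }
  · refine ⟨M.cl ⟨bomega, hom⟩, fun t => ?_⟩
    obtain ⟨t, rfl⟩ := M.cl_surj t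
    rw [M.E_cl, (hNUM _).2.2.2.2.2.1]
    constructor
    · intro h
      obtain ⟨n, hn'⟩ := hj0 t.1 t.2 h
      exact ⟨n, (hnum1 n _).2 ((M.cl_eq _ _).2 hn')⟩
    · rintro ⟨n, h⟩
      have h1 := (M.cl_eq _ _).1 ((hnum1 n _).1 h)
      exact M.up h1 (le_iSup (fun n => beq t.1 (bnum n)) n)
  · intro k
    exact (Nat.one_le_two_pow).trans (p.b_ge k)
  · refine ⟨M.cl ⟨bgr p.b, hb⟩, (hQC _ M hn hp _ _).2 ⟨fun n m => ?_, fun t h => ?_⟩⟩
    · constructor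
      · intro h
        by_contra hne
        have h1 : rv (bgr p.b) n m = (⊥ : BB p Ω) := by
          unfold rv
          rw [(hNUM _).2.2.2.2.2.2.2.2]
          refine iSup_eq_bot.2 fun k => (hNUM _).2.2.2.2.1 _ _ _ _ ?_
          intro heq
          rw [Prod.mk.injEq] at heq
          exact hne (by rw [heq.2, heq.1])
        rw [h1] at h
        exact M.bot_not_mem h
      · rintro rfl
        have h1 : (⊤ : BB p Ω) ≤ rv (bgr p.b) n (p.b n) := bval_le_bmem (bgr p.b) n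
        exact M.up M.top_mem h1
    · rw [(hNUM _).2.2.2.2.2.2.2.2] at h
      refine hj1 t.1 t.2 (M.up h (iSup_le fun n => ?_))
      exact le_iSup (fun q : ℕ × ℕ => beq t.1 (bnp q.1 q.2)) (n, p.b n)
  · exact hQF2 p _ M τ fw fz fz' hF hn hp hg (fun g a c c' => hf g a c c') hτ1 hτ2
      (fun g x hx => hτ3 g ⟨x, hx⟩) hj1 hj2
  · exact hQF1 p _ M xx hF hn hp hgr hxx1 hxx2 hj1 hj3

end Pool.Agent.H9.FCM.Fin2
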